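import Mathlib
import Pool.Agent.V11211.SmoothMain

/-!
# MP_cd4dc1_an, Q2

For every self-adjoint operator `T` on a smooth complex Banach space the operator
`T² - μ(T)² I` is strongly normal, where `μ(T)` is the minimum modulus.
-/

namespace Pool.Agent.Results.MP_cd4dc1_an.SquareMinusModulus

open Pool.Agent.V11211.SmoothJ Pool.Agent.V11211.SmoothMain

theorem result : ∀ (X : Type*) [NormedAddCommGroup X] [NormedSpace ℂ X] [CompleteSpace X],
    IsSmooth X → ∀ T : X →L[ℂ] X, IsSA T →
      IsStronglyNormal (T ^ 2 - ((minMod T ^ 2 : ℝ) : ℂ) • (1 : X →L[ℂ] X)) := by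
  intro X _ _ _ hX T hT
  exact q2 hX hT

end Pool.Agent.Results.MP_cd4dc1_an.SquareMinusModulus
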